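import Mathlib
import Pool.Agent.Zk12.TR.Stm3
import Pool.Agent.Zk12.Good2
import Pool.Agent.Zk47.TR.LocU

/-!
# The local data at a place where the twist is ramified
-/

set_option autoImplicit false
set_option linter.all false

open Polynomial FF Pool.Agent.Y157.PS IsDedekindDomain NumberField

namespace Pool.Agent.Zk47.TR

open Pool.Agent.Y158.GR Pool.Agent.Zk12 Pool.Agent.Zk12.TR

/-- the finiteness on the levels for `φ` follows from the one for `φ ∘ φ` -/
theorem finCls_sq {M : Type} [Field M] (N : Subfield M) (φ : M ≃+* M) (hφ : ∀ z, φ z ∈ N ↔ z ∈ N)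
    (h : FinCls N (fun h => (∃ n : ℕ, h ^ (2 ^ n) ∈ N) ∧ (φ.trans φ) h / h ∈ N)) :
    FinCls N (fun h => (∃ n : ℕ, h ^ (2 ^ n) ∈ N) ∧ φ h / h ∈ N) := by
  obtain ⟨C, hC⟩ := h
  refine ⟨C, fun T hT hc => hC T (fun h hh => ?_) hc⟩
  obtain ⟨h0, h1, h2⟩ := hT h hh
  refine ⟨h0, h1, ?_⟩
  have h3 : (φ.trans φ) h / h = φ (φ h / h) * (φ h / h) := by
    have h4 : φ h ≠ 0 := by rw [Ne, EmbeddingLike.map_eq_zero_iff]; exact h0
    rw [map_div₀]
    change φ (φ h) / h = _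
    field_simp
  rw [h3]
  exact mul_mem ((hφ _).2 h2) h2

section

variable {κ R M : Type} [Field κ] [Algebra ℚ κ] [IsAlgClosure ℚ κ] [Field R] [Field M]
  [Algebra κ R] [Algebra R M] [Algebra κ M] [IsScalarTower κ R M] {x : R} {Y : M}

/-- branch points in the two coordinates -/
theorem ord_mob_iff [CharZero κ] {X : M} {u α β e : κ} (hX : Transcendental κ X) (hα : α ≠ 0)
    (heu : e ≠ u) (W : Place κ M) :
    0 < W.ord (algebraMap κ M α / (X - algebraMap κ M u) + algebraMap κ M β -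
        algebraMap κ M (mobE u α β e)) ↔ 0 < W.ord (X - algebraMap κ M e) := by
  have hXc : ∀ c : κ, X - algebraMap κ M c ≠ 0 := by
    intro c h
    apply hX
    rw [sub_eq_zero.1 h]
    exact isAlgebraic_algebraMap c
  have h6 : -α / (e - u) ≠ 0 := div_ne_zero (neg_ne_zero.2 hα) (sub_ne_zero.2 heu)
  rw [mob_sub (hXc u) heu, W.ord_mul ((_root_.map_ne_zero _).2 h6) (div_ne_zero (hXc e) (hXc u)),
    W.ord_const h6, W.ord_div (hXc e) (hXc u), zero_add]
  constructor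
  · intro h
    by_contra hn
    have h1 : W.ord (X - algebraMap κ M u) < 0 := by omega
    have h2 : X - algebraMap κ M e = (X - algebraMap κ M u) + algebraMap κ M (u - e) := by
      rw [map_sub]; ring
    have h3 : u - e ≠ 0 := sub_ne_zero.2 (Ne.symm heu)
    have h4 := W.ord_add_eq (f := X - algebraMap κ M u) (g := algebraMap κ M (u - e)) (hXc u)
      ((_root_.map_ne_zero _).2 h3) (by rw [W.ord_const h3]; exact h1)
    rw [← h2] at h4
    omega
  · intro h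
    rw [ord_sub_const h heu]
    omega

/-- all powers of the residue cardinality -/
theorem pow_card_fix {F : Type} [Field F] {q : ℕ} (h : ∀ c : F, ∃ m : ℕ, 0 < m ∧ c ^ (q ^ m) = c)
    (r : ℕ) : ∀ c : F, ∃ m : ℕ, 0 < m ∧ c ^ ((q ^ r) ^ m) = c := by
  intro c
  obtain ⟨m, hm, hc⟩ := h c
  refine ⟨m, hm, ?_⟩
  have h1 : ∀ j : ℕ, c ^ (q ^ (m * j)) = c := by
    intro j
    induction j with
    | zero => simp
    | succ j ih => rw [Nat.mul_succ, pow_add, pow_mul, ih, hc]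
  rw [← pow_mul, mul_comm r m]
  exact h1 r

theorem bad_all (hC : Cov 2 κ R M x (BK κ) Y) (a : ℚ) (δ α : κ)
    (hδ : δ ^ 2 = algebraMap ℚ κ (30 ^ 5 * a)) (hα' : α ^ 2 = algebraMap ℚ κ a)
    (v : HeightOneSpectrum (𝓞 ℚ)) (hv : v.valuation ℚ 6 = 1)
    (ha : v.valuation ℚ a = WithZero.exp (-1 : ℤ)) :
    ∃ (V : ValuationSubring κ) (O : ValuationSubring M) (σ : κ ≃ₐ[ℚ] κ) (q : ℕ), Above v V ∧
      1 < q ∧ Fro V q σ ∧
      (∀ (γ : M ≃ₐ[R] M) (z : M), γ z ∈ O ↔ z ∈ O) ∧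
      (∀ γ : M ≃ₐ[R] M, (∀ z ∈ O, γ z - z ∈ O.nonunits) → γ = 1) ∧
      (∀ (j : ℕ) (φ : RingAut M), SA ℚ x φ (σ ^ 2 ^ j) → Frb ℚ x Y φ (σ ^ 2 ^ j) (q ^ 2 ^ j)) ∧
      ∀ S : (κ ≃ₐ[ℚ] κ) →* RingAut M, Sec ℚ κ R M x Y δ S →
        ∃ (W : Place κ M) (c : M ≃ₐ[R] M),
          (∃ e ∈ BK κ, 0 < W.ord (algebraMap R M x - algebraMap κ M e)) ∧
          Fixes W c ∧ c Y ≠ Y ∧ c ^ 2 = 1 ∧ (∀ τ : κ ≃ₐ[ℚ] κ, Dec V τ → Fixes W (S τ)) ∧
          (∀ τ : κ ≃ₐ[ℚ] κ, Ine V τ → τ α = α → ∀ z ∈ O, S τ z - z ∈ O.nonunits) ∧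
          (∀ τ : κ ≃ₐ[ℚ] κ, Ine V τ → τ α ≠ α → ∀ z ∈ O, S τ z - c z ∈ O.nonunits) ∧
          ∀ W' : Place κ M,
            (∃ e ∈ BK κ, 0 < W'.ord (algebraMap R M x - algebraMap κ M e)) →
            (∀ τ : κ ≃ₐ[ℚ] κ, Dec V τ → Fixes W' (S τ)) → W' = W := by
  classical
  haveI : IsAlgClosed κ := IsAlgClosure.isAlgClosed ℚ
  haveI : Algebra.IsAlgebraic ℚ κ := IsAlgClosure.isAlgebraic
  haveI : CharZero κ := charZero_of_injective_algebraMap (algebraMap ℚ κ).injective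
  obtain ⟨h2, h3⟩ := v_23 hv
  obtain ⟨V, hV⟩ := exists_above (K := ℚ) κ v
  obtain ⟨w, hw⟩ := IsAlgClosed.exists_pow_nat_eq (-3 : κ) (n := 2) (by norm_num)
  have hw0 : w ≠ 0 := by
    rintro rfl
    norm_num at hw
  have hc0 : (2 : κ) + w ≠ 0 := by
    intro h
    have h1 : w = -2 := by linear_combination h
    rw [h1] at hw
    norm_num at hw
  have hU : ∀ a ∈ A5, IsU V ((a : κ) - w) := fun a ha => unit_aw hv hV hw ha
  have hA : ∀ a ∈ A5, (a : κ) - w ≠ 0 := fun a ha => (hU a ha).1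
  have hVq : ∀ q : ℚ, v.valuation ℚ q = 1 → IsU V (algebraMap ℚ κ q) := fun q hq => (hV.isU q).2 hq
  have umul : ∀ a b : κ, IsU V a → IsU V b → IsU V (a * b) := fun a b ha hb =>
    ⟨mul_ne_zero ha.1 hb.1, mul_mem ha.2.1 hb.2.1, by rw [mul_inv]; exact mul_mem ha.2.2 hb.2.2⟩
  have uinv : ∀ a : κ, IsU V a → IsU V a⁻¹ := fun a ha =>
    ⟨inv_ne_zero ha.1, ha.2.2, by rw [inv_inv]; exact ha.2.1⟩
  -- square roots of units are fixed by the inertia group
  have usq : ∀ z : κ, IsU V (z ^ 2) → IsU V z := by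
    intro z hz
    rw [isU_val, map_pow] at hz
    rw [isU_val]
    exact (pow_eq_one_iff_of_nonneg zero_le two_ne_zero).1 hz
  have hU2 : IsU V (2 : κ) := by
    have := hVq 2 h2
    rwa [map_ofNat] at this
  have hfix : ∀ (σ : κ ≃ₐ[ℚ] κ), Ine V σ → ∀ z : κ, IsU V z → σ z ^ 2 = z ^ 2 → σ z = z := by
    intro σ hσ z hz hz2
    rcases sq_eq_sq_iff_eq_or_eq_neg.1 hz2 with h | h
    · exact h
    · exfalso
      have h4 := hσ.2 z hz.2.1
      rw [h] at h4
      have h5 : -z - z = (-2) * z := by ring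
      rw [h5] at h4
      have h6 := (umul _ _ hU2 hz)
      rw [isU_val] at h6
      rw [ValuationSubring.mem_nonunits_iff, neg_mul, Valuation.map_neg, h6] at h4
      exact lt_irrefl _ h4
  have hwU : IsU V w := by
    apply usq
    rw [hw]
    have := hVq (-3) (by rw [Valuation.map_neg, h3])
    rwa [map_neg, map_ofNat] at this
  have hwfix : ∀ σ : κ ≃ₐ[ℚ] κ, Ine V σ → σ w = w := by
    intro σ hσ
    refine hfix σ hσ w hwU ?_
    rw [← map_pow, hw, map_neg, map_ofNat]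
  have hwpm : ∀ σ : κ ≃ₐ[ℚ] κ, σ w = w ∨ σ w = -w := by
    intro σ
    apply sq_eq_sq_iff_eq_or_eq_neg.1
    rw [← map_pow, hw, map_neg, map_ofNat]
  -- the field
  obtain ⟨k', hk'⟩ : ∃ k' : IntermediateField ℚ κ, k' = IntermediateField.adjoin ℚ {w} := ⟨_, rfl⟩
  have hwk : w ∈ k' := by rw [hk']; exact IntermediateField.mem_adjoin_simple_self _ _
  haveI hfd : FiniteDimensional ℚ k' := by
    rw [hk']
    exact IntermediateField.adjoin.finiteDimensional (Algebra.IsIntegral.isIntegral w)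
  haveI hnf : NumberField k' := @NumberField.mk k' _ inferInstance (by
    convert hfd
    exact Subsingleton.elim _ _)
  haveI : Algebra.IsAlgebraic k' κ := Algebra.IsAlgebraic.tower_top (K := ℚ) (L := k') (A := κ)
  haveI : IsAlgClosure k' κ := ⟨inferInstance, inferInstance⟩
  -- the prime number
  obtain ⟨p, hp, hvp⟩ := exists_p v
  have hpV : (p : κ) ∈ V.nonunits := by
    have h4 : v.valuation ℚ (p : ℚ) < 1 := by
      rw [hvp.lt_one_iff_lt_one, Rat.padicValuation_self]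
      exact WithZero.exp_lt_exp.2 (by norm_num)
    have := (hV.non (p : ℚ)).2 h4
    rwa [_root_.map_natCast] at this
  obtain ⟨v', hV'⟩ := above_sub (K' := k') V hp.out.ne_zero hpV
  have h2v' : ((2 : ℕ) : 𝓞 k') ∉ v'.asIdeal := by
    rw [← v'.intValuation_eq_one_iff]
    have h4 : v'.valuation k' (algebraMap (𝓞 k') k' ((2 : ℕ) : 𝓞 k')) = 1 := by
      rw [_root_.map_natCast, ← hV'.isU, _root_.map_natCast]
      exact_mod_cast hU2
    rwa [v'.valuation_of_algebraMap] at h4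
  have h2v : ((2 : ℕ) : 𝓞 ℚ) ∉ v.asIdeal := by
    rw [← v.intValuation_eq_one_iff]
    have h4 : v.valuation ℚ (algebraMap (𝓞 ℚ) ℚ ((2 : ℕ) : 𝓞 ℚ)) = 1 := by
      rw [_root_.map_natCast]
      exact_mod_cast h2
    rwa [v.valuation_of_algebraMap] at h4
  -- restriction of the action
  obtain ⟨res, hres⟩ : ∃ res : (κ ≃ₐ[k'] κ) →* (κ ≃ₐ[ℚ] κ), ∀ σ z, res σ z = σ z :=
    ⟨AlgEquiv.restrictScalarsHom ℚ, fun σ z => rfl⟩
  have hk'fix : ∀ σ : κ ≃ₐ[ℚ] κ, σ w = w → ∀ z ∈ k', σ z = z := by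
    intro σ hσ z hz
    rw [hk'] at hz
    induction hz using IntermediateField.adjoin_induction with
    | mem y hy =>
      rw [Set.mem_singleton_iff] at hy
      rw [hy, hσ]
    | algebraMap c => exact σ.commutes c
    | add a b _ _ ha hb => rw [map_add, ha, hb]
    | inv a _ ha => rw [map_inv₀, ha]
    | mul a b _ _ ha hb => rw [map_mul, ha, hb]
  have hlift : ∀ σ : κ ≃ₐ[ℚ] κ, σ w = w → ∃ σ' : κ ≃ₐ[k'] κ, res σ' = σ := by
    intro σ hσ
    let σ' : κ ≃ₐ[k'] κ := AlgEquiv.ofRingEquiv (f := (σ : κ ≃+* κ)) (fun r =>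
      hk'fix σ hσ _ r.2)
    have h5 : ∀ z, σ' z = σ z := fun z => rfl
    exact ⟨σ', AlgEquiv.ext fun z => by rw [hres, h5]⟩
  have hres_mem : ∀ (σ : κ ≃ₐ[k'] κ) (z : κ), z ∈ k' → σ z = z := fun σ z hz =>
    σ.commutes ⟨z, hz⟩
  have hresD : ∀ σ : κ ≃ₐ[k'] κ, Dec V (res σ) ↔ Dec V σ := fun σ =>
    ⟨fun h z => by rw [← hres]; exact h z, fun h z => by rw [hres]; exact h z⟩
  have hresI : ∀ σ : κ ≃ₐ[k'] κ, Ine V (res σ) ↔ Ine V σ := fun σ =>
    ⟨fun h => ⟨(hresD σ).1 h.1, fun z hz => by rw [← hres]; exact h.2 z hz⟩,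
      fun h => ⟨(hresD σ).2 h.1, fun z hz => by rw [hres]; exact h.2 z hz⟩⟩
  have hck : (2 : κ) + w ∈ k' := add_mem (by exact_mod_cast natCast_mem k' 2) hwk
  have h30k : (30 : κ) ∈ k' := by exact_mod_cast natCast_mem k' 30
  have huk : 30 / (2 + w) ∈ k' := div_mem h30k hck
  have hαk : -30 / (2 + w) ^ 2 ∈ k' := div_mem (neg_mem h30k) (pow_mem hck 2)
  have hβk : -1 / (2 + w) ∈ k' := div_mem (neg_mem (one_mem _)) hck
  have hα : -30 / (2 + w) ^ 2 ≠ 0 := div_ne_zero (by norm_num) (pow_ne_zero _ hc0)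
  have huB : 30 / (2 + w) ∉ BK κ := by
    intro h
    have h5 : mobE (30 / (2 + w)) (-30 / (2 + w) ^ 2) (-1 / (2 + w)) (30 / (2 + w)) =
        -1 / (2 + w) := by
      unfold mobE
      rw [sub_self, div_zero, zero_add]
    rcases mobE_mem hc0 hA h with h6 | ⟨a, ha, h6⟩
    · rw [h5] at h6
      exact div_ne_zero (neg_ne_zero.2 one_ne_zero) hc0 h6
    · rw [h5, eq_comm, inv_eq_iff_eq_inv, inv_div] at h6
      have h7 : (a : κ) = -2 := by
        rw [div_neg, div_one] at h6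
        linear_combination h6
      have h8 : a = -2 := by exact_mod_cast h7
      rw [h8] at ha
      revert ha
      decide
  obtain ⟨d, hd⟩ := IsAlgClosed.exists_pow_nat_eq
    (∏ e ∈ BK κ, (-(-30 / (2 + w) ^ 2) / (e - 30 / (2 + w)))) (n := 2) (by norm_num)
  have hC' := cov_mob hC (β := -1 / (2 + w)) huB hα BK_card hd
  have hGood := good_mob hv hV hw hc0
  rw [lead_prod hw hc0 hA hw0] at hd
  have hd0 : d ≠ 0 := by
    rintro rfl
    rw [zero_pow two_ne_zero] at hd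
    refine absurd hd.symm (div_ne_zero (by norm_num) (mul_ne_zero (mul_ne_zero (by norm_num) hw0)
      (pow_ne_zero _ hc0)))
  have ha0 : a ≠ 0 := by
    rintro rfl
    rw [map_zero] at ha
    exact WithZero.exp_ne_zero ha.symm
  have haκ : algebraMap ℚ κ a ≠ 0 := (_root_.map_ne_zero _).2 ha0
  have hα0 : α ≠ 0 := by
    rintro rfl
    rw [zero_pow two_ne_zero] at hα'
    exact haκ hα'.symm
  have hδ0 : δ ≠ 0 := by
    rintro rfl
    rw [zero_pow two_ne_zero] at hδ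
    have h5 := hδ.symm
    rw [_root_.map_eq_zero] at h5
    exact mul_ne_zero (by norm_num) ha0 h5
  have haN : algebraMap ℚ κ a ∈ V.nonunits := by
    rw [hV.non, ha, ← WithZero.exp_zero]
    exact WithZero.exp_lt_exp.2 (by norm_num)
  obtain ⟨hl, hrot, O, hG, hGu, -⟩ := hV'.wgt h2v' hC' hGood
  -- data over `ℚ`
  obtain ⟨A, i1, i2, i3, i4, hA1, hA2, hA3, hA5, hA6⟩ := hV.data 2 h2v
  letI : Algebra A κ := ((algebraMap ℚ κ).comp (algebraMap A ℚ)).toAlgebra
  haveI : IsScalarTower A ℚ κ := IsScalarTower.of_algebraMap_eq fun _ => rfl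
  obtain ⟨F, iF, r, hr, ⟨D⟩⟩ := a_ndisc A ℚ κ V hA5 hA6 2 hA3
  obtain ⟨σ, hσ⟩ := Pool.Agent.Y183.PS.fro A ℚ κ V hA5 hA6
  obtain ⟨ϖ0, hϖ0⟩ := IsDiscreteValuationRing.exists_irreducible A
  obtain ⟨δ0, hB0⟩ := (⟨hA3, hA5, hA6, hϖ0, one_ne_zero, fun σ _ => map_one σ⟩ :
    GB 2 A ℚ κ V ϖ0 (1 : κ)).toBase
  obtain ⟨p0, a0, hp0, hchar, ha0', hq, hF, hcop⟩ := Pool.Agent.Y748.PS.res_facts hB0 hr
  haveI : Fact p0.Prime := ⟨hp0⟩
  -- data over `k'`
  obtain ⟨A', j1, j2, j3, j4, hA1', hA2', hA3', hA5', hA6'⟩ := hV'.data 2 h2v'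
  letI : Algebra A' κ := ((algebraMap k' κ).comp (algebraMap A' k')).toAlgebra
  haveI : IsScalarTower A' k' κ := IsScalarTower.of_algebraMap_eq fun _ => rfl
  obtain ⟨ϖ, hϖ⟩ := IsDiscreteValuationRing.exists_irreducible A'
  -- the element `b`
  obtain ⟨q0, hq0⟩ : ∃ q : κ, q = (2 + w) ^ 3 / 30 ^ 3 := ⟨_, rfl⟩
  have hqk : q0 ∈ k' := by rw [hq0]; exact div_mem (pow_mem hck 3) (pow_mem h30k 3)
  have hq00 : q0 ≠ 0 := by rw [hq0]; exact div_ne_zero (pow_ne_zero _ hc0) (by norm_num)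
  obtain ⟨b, hb⟩ : ∃ b : κ, b = q0 * (d * δ) := ⟨_, rfl⟩
  have hb0 : b ≠ 0 := by rw [hb]; exact mul_ne_zero hq00 (mul_ne_zero hd0 hδ0)
  have hz2 : b ^ 2 = algebraMap ℚ κ a / (48 * w) := by
    rw [hb, mul_pow, mul_pow, hd, hδ, hq0, map_mul, map_pow, map_ofNat]
    field_simp
  have h48 : IsU V ((48 : κ) * w) := by
    refine umul _ _ ?_ hwU
    have h48 : v.valuation ℚ 48 = 1 := by
      rw [show (48 : ℚ) = 2 * 2 * 2 * 2 * 3 by norm_num, map_mul, map_mul, map_mul, map_mul, h2,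
        h3]
      norm_num
    have := hVq 48 h48
    rwa [map_ofNat] at this
  have h48k : (48 : κ) * w ∈ k' := mul_mem (by exact_mod_cast natCast_mem k' 48) hwk
  have hbα : ∀ τ : κ ≃ₐ[ℚ] κ, Ine V τ → τ (b / α) = b / α := by
    intro τ hτ
    have h5 : (b / α) ^ 2 = (48 * w)⁻¹ := by
      rw [div_pow, hz2, hα']
      field_simp
    refine hfix τ hτ _ (usq _ (by rw [h5]; exact uinv _ h48)) ?_
    rw [← map_pow, h5, map_inv₀, hk'fix τ (hwfix τ hτ) _ h48k]
  have hbfix : ∀ τ : κ ≃ₐ[ℚ] κ, Ine V τ → (τ b = b ↔ τ α = α) := by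
    intro τ hτ
    have h5 : b = (b / α) * α := by field_simp
    have h6 : τ b = (b / α) * τ α := by
      conv_lhs => rw [h5]
      rw [map_mul, hbα τ hτ]
    have h7 : b / α ≠ 0 := div_ne_zero hb0 hα0
    constructor
    · intro h
      rw [h] at h6
      conv_lhs at h6 => rw [h5]
      exact (mul_left_cancel₀ h7 h6).symm
    · intro h
      rw [h6, h, ← h5]
  -- `v` is unramified in `k'`
  have hunr : IsU V (algebraMap ℚ κ a / algebraMap A' κ ϖ) := by
    have hinj : Function.Injective (algebraMap A' κ) := by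
      rw [IsScalarTower.algebraMap_eq A' k' κ]
      exact (algebraMap k' κ).injective.comp (IsFractionRing.injective A' k')
    have hϖ1 : algebraMap A' κ ϖ ≠ 0 := by
      rw [Ne, map_eq_zero_iff _ hinj]
      exact hϖ.ne_zero
    have hϖk : algebraMap A' κ ϖ ∈ k' := (algebraMap A' k' ϖ).2
    have hϖN : algebraMap A' κ ϖ ∈ V.nonunits :=
      hA6' ϖ ((IsLocalRing.mem_maximalIdeal _).2 hϖ.not_isUnit)
    obtain ⟨t, ht0, htU⟩ := hV.ine h2v hϖ1 (fun τ hτ => hk'fix τ (hwfix τ hτ) _ hϖk)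
    obtain ⟨m, hm⟩ := a_ine A' k' κ V ϖ hA5' hA6' hϖ (algebraMap ℚ κ a) haκ
      (fun τ _ => by rw [← hres τ]; exact (res τ).commutes a)
    -- the valuation of `t`
    have hvt : v.valuation ℚ t ≠ 0 := (Valuation.ne_zero_iff _).2 ht0
    obtain ⟨j, hj⟩ : ∃ j : ℤ, v.valuation ℚ t = v.valuation ℚ a ^ j := by
      refine ⟨-(WithZero.log (v.valuation ℚ t)), ?_⟩
      rw [ha, ← WithZero.exp_zsmul, smul_eq_mul]
      rw [show -WithZero.log (v.valuation ℚ t) * -1 = WithZero.log (v.valuation ℚ t) by ring,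
        WithZero.exp_log hvt]
    have htU' : IsU V (algebraMap ℚ κ (t / a ^ j)) := by
      apply hVq
      rw [map_div₀, map_zpow₀, hj, div_self (zpow_ne_zero _ ((Valuation.ne_zero_iff _).2 ha0))]
    have e1 : V.valuation (algebraMap A' κ ϖ) = V.valuation (algebraMap ℚ κ a) ^ j := by
      have e2 := umul _ _ htU htU'
      rw [isU_val] at e2
      rw [map_div₀ (algebraMap ℚ κ), div_mul_div_cancel₀ ((_root_.map_ne_zero _).2 ht0),
        map_div₀, div_eq_one_iff_eq (by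
          rw [Ne, map_eq_zero]
          rw [map_zpow₀]
          exact zpow_ne_zero _ haκ), map_zpow₀, map_zpow₀] at e2
      exact e2
    have e3 : V.valuation (algebraMap ℚ κ a) = V.valuation (algebraMap A' κ ϖ) ^ m := by
      rw [isU_val, map_div₀, map_zpow₀, div_eq_one_iff_eq (by
        apply zpow_ne_zero
        rw [Ne, map_eq_zero]
        exact hϖ1)] at hm
      exact hm
    have hva : V.valuation (algebraMap ℚ κ a) < 1 := (ValuationSubring.mem_nonunits_iff V).1 haN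
    have hvϖ : V.valuation (algebraMap A' κ ϖ) < 1 := (ValuationSubring.mem_nonunits_iff V).1 hϖN
    have hva0 : 0 < V.valuation (algebraMap ℚ κ a) := zero_lt_iff.2 (by
      rw [Ne, map_eq_zero]; exact haκ)
    have e4 : V.valuation (algebraMap ℚ κ a) ^ (1 : ℤ) =
        V.valuation (algebraMap ℚ κ a) ^ (j * m) := by
      rw [zpow_one, zpow_mul, ← e1, ← e3]
    have e5 : (1 : ℤ) = j * m := by
      have := (zpow_right_strictAnti₀ hva0 hva).injective e4
      exact this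
    have e6 : m = 1 := by
      rcases Int.eq_one_or_neg_one_of_mul_eq_one (by rw [mul_comm]; exact e5.symm : m * j = 1) with
        h | h
      · exact h
      · exfalso
        rw [h, zpow_neg_one] at e3
        rw [e3] at hva
        exact absurd hva (not_lt.2 ((one_lt_inv₀ (zero_lt_iff.2 (by
          rw [Ne, map_eq_zero]; exact hϖ1))).2 hvϖ).le)
    rw [e6, zpow_one] at e3
    rw [isU_val, map_div₀, e3, div_self (by rw [Ne, map_eq_zero]; exact hϖ1)]
  have hB : Base 2 A' k' κ V ϖ b 1 := by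
    refine ⟨hA3', hA5', hA6', hϖ, by norm_num, ⟨⟨algebraMap ℚ κ a / (48 * w),
      div_mem (k'.algebraMap_mem a) h48k⟩, hz2⟩, ?_⟩
    have h5 : b ^ 2 / algebraMap A' κ ϖ ^ (1 : ℤ) =
        (algebraMap ℚ κ a / algebraMap A' κ ϖ) * (48 * w)⁻¹ := by
      rw [hz2, zpow_one]
      have := h48.1
      field_simp
    rw [h5]
    exact umul _ _ hunr (uinv _ h48)
  have hXt : Transcendental κ (algebraMap R M x) := by
    rw [transcendental_algebraMap_iff (algebraMap R M).injective]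
    exact hC.rat.trans
  have hmobX : algebraMap R M (mobX x (30 / (2 + w)) (-30 / (2 + w) ^ 2) (-1 / (2 + w))) =
      algebraMap κ M (-30 / (2 + w) ^ 2) / (algebraMap R M x - algebraMap κ M (30 / (2 + w))) +
        algebraMap κ M (-1 / (2 + w)) := by
    unfold mobX
    rw [map_add, map_div₀, map_sub, ← IsScalarTower.algebraMap_apply,
      ← IsScalarTower.algebraMap_apply, ← IsScalarTower.algebraMap_apply]
  have hbr : ∀ (W : Place κ M), (∃ e ∈ (BK κ).image (mobE (30 / (2 + w)) (-30 / (2 + w) ^ 2)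
      (-1 / (2 + w))), 0 < W.ord (algebraMap R M (mobX x (30 / (2 + w)) (-30 / (2 + w) ^ 2)
      (-1 / (2 + w))) - algebraMap κ M e)) ↔
      ∃ e ∈ BK κ, 0 < W.ord (algebraMap R M x - algebraMap κ M e) := by
    intro W
    constructor
    · rintro ⟨e', he', h⟩
      obtain ⟨e, he, rfl⟩ := Finset.mem_image.1 he'
      refine ⟨e, he, ?_⟩
      rw [hmobX, ord_mob_iff hXt hα (fun h => huB (by rw [← h]; exact he))] at h
      exact h
    · rintro ⟨e, he, h⟩
      refine ⟨_, Finset.mem_image_of_mem _ he, ?_⟩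
      rw [hmobX, ord_mob_iff hXt hα (fun h => huB (by rw [← h]; exact he))]
      exact h
  refine ⟨V, O, σ, Nat.card (IsLocalRing.ResidueField A), hV, Finite.one_lt_card, hσ,
    fun γ => hG.stable' hGu γ, fun γ hγ => ?_, fun j φ hφ => ?_, fun S hs => ?_⟩
  · -- faithful
    exact unique_lift a_g2 hC' hl hG hGu γ 1 hγ
  · -- weights
    refine ⟨hφ, fun n c hc => Pool.Agent.Y748.PS.frob_rou (ℓ := 2) hl (fro_pow hσ (2 ^ j)) hc,
      fun N hN hYN hst => ?_⟩
    apply finCls_sq N.toSubfield φ hst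
    obtain ⟨ρ, hρ⟩ : ∃ ρ : κ ≃ₐ[ℚ] κ, ρ = (σ ^ 2 ^ j) ^ 2 := ⟨_, rfl⟩
    obtain ⟨Q, hQ⟩ : ∃ Q : ℕ, Q = (Nat.card (IsLocalRing.ResidueField A) ^ 2 ^ j) ^ 2 := ⟨_, rfl⟩
    have hσ2 : Fro V Q ρ := by
      rw [hρ, hQ]
      exact fro_pow (fro_pow hσ (2 ^ j)) 2
    have hQp : Q = p0 ^ (a0 * (2 ^ j * 2)) := by
      rw [hQ, hq, ← pow_mul, ← pow_mul]
    have hQF : ∀ c : F, ∃ m : ℕ, 0 < m ∧ c ^ (Q ^ m) = c := by
      rw [hQ, ← pow_mul]
      exact pow_card_fix hF _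
    have hw2 : ρ w = w := by
      rw [hρ, pow_two]
      change (σ ^ 2 ^ j) ((σ ^ 2 ^ j) w) = w
      rcases hwpm (σ ^ 2 ^ j) with h | h
      · rw [h, h]
      · rw [h, map_neg, h, neg_neg]
    have hcst : ∀ c : κ, (φ.trans φ) (algebraMap κ M c) = algebraMap κ M (ρ c) := by
      intro c
      change φ (φ (algebraMap κ M c)) = _
      rw [hφ.const, hφ.const, hρ, pow_two]
      rfl
    have hX2 : ∀ z ∈ k', (φ.trans φ) (algebraMap κ M z) = algebraMap κ M z := by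
      intro z hz
      rw [hcst, hk'fix _ hw2 z hz]
    have hx2 : (φ.trans φ) (algebraMap R M x) = algebraMap R M x := by
      change φ (φ (algebraMap R M x)) = _
      rw [hφ.fixx, hφ.fixx]
    have hκN : ∀ c : κ, algebraMap κ M c ∈ N := by
      intro c
      rw [IsScalarTower.algebraMap_apply κ R M]
      exact N.algebraMap_mem _
    have hstable : ∀ z, (φ.trans φ) z ∈ N ↔ z ∈ N := by
      intro z
      change φ (φ z) ∈ N ↔ _
      rw [hst, hst]
    have hxm : (φ.trans φ) (algebraMap R M (mobX x (30 / (2 + w)) (-30 / (2 + w) ^ 2)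
        (-1 / (2 + w)))) =
        algebraMap R M (mobX x (30 / (2 + w)) (-30 / (2 + w) ^ 2) (-1 / (2 + w))) := by
      rw [hmobX, map_add, map_div₀, map_sub, hX2 _ huk, hX2 _ hαk, hX2 _ hβk, hx2]
    have hYm : algebraMap κ M d * Y / (algebraMap R M x - algebraMap κ M (30 / (2 + w))) ^ 3 ∈ N :=
      div_mem (mul_mem (hκN d) hYN) (pow_mem (sub_mem (N.algebraMap_mem _) (hκN _)) 3)
    have hpos : 0 < a0 * (2 ^ j * 2) := Nat.mul_pos ha0' (by positivity)
    exact a_fixf 2 κ R M _ _ _ hC' F V r hr hGood hl D p0 Q (a0 * (2 ^ j * 2)) hpos hQp hQF O hG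
      hGu N hN hYm (φ.trans φ) (ρ : κ ≃+* κ) hcst hxm hstable (fun c => hσ2.1 c)
      (fun c hc => hσ2.2 c hc)
  · -- sections
    have hX : ∀ σ : κ ≃ₐ[k'] κ, ∀ z ∈ k', S (res σ) (algebraMap κ M z) = algebraMap κ M z := by
      intro σ z hz
      rw [hs.const, hres, hres_mem σ z hz]
    have hAct' : Sec k' κ R M (mobX x (30 / (2 + w)) (-30 / (2 + w) ^ 2) (-1 / (2 + w)))
        (algebraMap κ M d * Y / (algebraMap R M x - algebraMap κ M (30 / (2 + w))) ^ 3) b
        (S.comp res) := by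
      refine ⟨fun σ c => ?_, fun σ => ?_, fun σ => ?_, fun z => ?_⟩
      · rw [MonoidHom.comp_apply, hs.const, hres]
      · rw [MonoidHom.comp_apply, hmobX, map_add, map_div₀, map_sub, hX σ _ huk, hX σ _ hαk,
          hX σ _ hβk, hs.fixx]
      · rw [MonoidHom.comp_apply, map_div₀, map_pow, map_sub, hX σ _ huk, hs.fixx, map_mul,
          hs.const, hs.fixy, hres, hres]
        have h5 : σ b / b = σ d * (σ δ / δ) / d := by
          rw [hb, map_mul, map_mul, hres_mem σ q0 hqk]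
          field_simp
        rw [h5]
        have hdM : algebraMap κ M d ≠ 0 := (_root_.map_ne_zero _).2 hd0
        simp only [map_div₀, map_mul]
        field_simp
      · obtain ⟨E, hE, hE'⟩ := hs.cont z
        haveI := hE
        have hle : k' ≤ E ⊔ k' := le_sup_right
        haveI : FiniteDimensional ℚ (E ⊔ k' : IntermediateField ℚ κ) := inferInstance
        refine ⟨IntermediateField.extendScalars hle, ?_, fun σ hσ => ?_⟩
        · haveI : FiniteDimensional ℚ (IntermediateField.extendScalars hle) := this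
          exact FiniteDimensional.right ℚ k' (IntermediateField.extendScalars hle)
        · rw [MonoidHom.comp_apply]
          apply hE'
          rw [IntermediateField.mem_fixingSubgroup_iff] at hσ ⊢
          intro y hy
          rw [hres]
          exact hσ y ((le_sup_left : E ≤ E ⊔ k') hy)
    obtain ⟨W, c, hWB, hWc, hcY, hc2, hWfix, hI1, hI2, hWun⟩ := locU a_exf a_unq a_stab a_conj a_g2
      a_g3 a_gex a_gun a_tau a_wgt A' k' κ R M V ϖ b 1 fact2 hB _ _ _ hC' hGood F r hr D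
      (S.comp res) hAct' O hG hGu
    have hWB' := (hbr W).1 hWB
    refine ⟨W, c, hWB', hWc, fun h => hcY ?_, hc2, ?_, ?_, ?_, ?_⟩
    · rw [map_div₀, map_mul, map_pow, map_sub, c.commutes, h, Pool.Agent.Y748.PS.gal_const,
        Pool.Agent.Y748.PS.gal_const]
    · -- `W` is fixed by the decomposition group over `ℚ`
      intro τ hτ
      let Wτ := Place.comapEquiv W (S τ) (τ : κ ≃+* κ) (hs.const τ)
      have e1 : ∀ z, Wτ.ord z = W.ord (S τ z) := fun z => rfl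
      have h5 : Wτ = W := by
        apply hWun
        · rw [hbr]
          obtain ⟨e, he, hWe⟩ := hWB'
          refine ⟨e, he, ?_⟩
          obtain ⟨e0, he0, rfl⟩ := mem_BK.1 he
          rw [e1, map_sub, hs.fixx, hs.const, τ.commutes]
          exact hWe
        · intro ρ hρ z
          have h6 : (τ * res ρ * τ⁻¹) w = w := by
            change τ (res ρ (τ⁻¹ w)) = w
            rw [hres]
            have h7 : ρ w = w := hres_mem ρ w hwk
            have h8 : τ (τ⁻¹ w) = w := τ.apply_symm_apply w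
            rcases hwpm τ⁻¹ with h | h
            · rw [h] at h8 ⊢
              rw [h7, h8]
            · rw [h] at h8 ⊢
              rw [map_neg, h7, h8]
          obtain ⟨ρ', hρ'⟩ := hlift _ h6
          have hD' : Dec V ρ' := by
            rw [← hresD, hρ']
            exact (hτ.mul ((hresD ρ).2 hρ)).mul hτ.inv
          have h9 := hWfix ρ' hD' (S τ z)
          rw [MonoidHom.comp_apply, hρ'] at h9
          rw [e1, e1, MonoidHom.comp_apply]
          rw [← h9]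
          congr 1
          have h10 : τ * res ρ = (τ * res ρ * τ⁻¹) * τ := by rw [inv_mul_cancel_right]
          have h11 : S (τ * res ρ) z = S ((τ * res ρ * τ⁻¹) * τ) z := by rw [← h10]
          rw [map_mul, map_mul S (τ * res ρ * τ⁻¹) τ] at h11
          exact h11
      intro z
      rw [← e1, h5]
    · intro τ hτ hτα z hz
      obtain ⟨τ', rfl⟩ := hlift τ (hwfix τ hτ)
      have h5 := (hresI τ').1 hτ
      exact hI1 τ' h5 (by rw [← hres]; exact (hbfix _ hτ).2 hτα) z hz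
    · intro τ hτ hτα z hz
      obtain ⟨τ', rfl⟩ := hlift τ (hwfix τ hτ)
      have h5 := (hresI τ').1 hτ
      exact hI2 τ' h5 (by rw [← hres]; exact fun h => hτα ((hbfix _ hτ).1 h)) z hz
    · intro W' hW' hfix'
      apply hWun W' ((hbr W').2 hW')
      intro ρ hρ
      exact hfix' (res ρ) ((hresD ρ).2 hρ)

end

/-- **part C** (see `bad_all` for a little more) -/
theorem bad' : S_BAD' := by
  intro κ R M _ _ _ _ _ _ _ _ _ x Y hC a δ α hδ hα v hv ha
  obtain ⟨V, O, σ, q, hV, hq, hσ, c1, c2, c3, c4⟩ := bad_all hC a δ α hδ hα v hv ha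
  refine ⟨V, O, σ, q, hV, hq, hσ, c1, c2, c3, fun S hS => ?_⟩
  obtain ⟨W, c, d1, d2, d3, d3', d4, d5, d6, d7⟩ := c4 S hS
  exact ⟨W, c, d1, d2, d3, d4 σ hσ.1, d5, d6, d7⟩

/-- the statement `S_BAD` at the places outside `30` -/
theorem bad30 (κ R M : Type) [Field κ] [Algebra ℚ κ] [IsAlgClosure ℚ κ] [Field R] [Field M]
    [Algebra κ R] [Algebra R M] [Algebra κ M] [IsScalarTower κ R M] (x : R) (Y : M)
    (hC : Cov 2 κ R M x (BK κ) Y) (a : ℚ) (δ : κ) (hδ : δ ^ 2 = algebraMap ℚ κ (30 ^ 5 * a))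
    (v : HeightOneSpectrum (𝓞 ℚ)) (hv : v.valuation ℚ 30 = 1)
    (ha : v.valuation ℚ a = WithZero.exp (-1 : ℤ)) :
    ∃ (V : ValuationSubring κ) (O : ValuationSubring M) (σ : κ ≃ₐ[ℚ] κ) (q : ℕ), Above v V ∧
      1 < q ∧ Fro V q σ ∧
      (∀ (γ : M ≃ₐ[R] M) (z : M), γ z ∈ O ↔ z ∈ O) ∧
      (∀ γ : M ≃ₐ[R] M, (∀ z ∈ O, γ z - z ∈ O.nonunits) → γ = 1) ∧
      (∀ (j : ℕ) (φ : RingAut M), SA ℚ x φ (σ ^ 2 ^ j) → Frb ℚ x Y φ (σ ^ 2 ^ j) (q ^ 2 ^ j)) ∧
      ∀ S : (κ ≃ₐ[ℚ] κ) →* RingAut M, Sec ℚ κ R M x Y δ S →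
        ∃ (W : Place κ M) (c : M ≃ₐ[R] M),
          (∃ e ∈ BK κ, 0 < W.ord (algebraMap R M x - algebraMap κ M e)) ∧
          Fixes W c ∧ c Y ≠ Y ∧ c ^ 2 = 1 ∧ (∀ τ : κ ≃ₐ[ℚ] κ, Dec V τ → Fixes W (S τ)) ∧
          (∀ τ : κ ≃ₐ[ℚ] κ, Ine V τ → τ δ = δ → ∀ z ∈ O, S τ z - z ∈ O.nonunits) ∧
          (∀ τ : κ ≃ₐ[ℚ] κ, Ine V τ → τ δ ≠ δ → ∀ z ∈ O, S τ z - c z ∈ O.nonunits) ∧
          ∀ W' : Place κ M,
            (∃ e ∈ BK κ, 0 < W'.ord (algebraMap R M x - algebraMap κ M e)) →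
            (∀ τ : κ ≃ₐ[ℚ] κ, Dec V τ → Fixes W' (S τ)) → W' = W := by
  haveI : IsAlgClosed κ := IsAlgClosure.isAlgClosed ℚ
  haveI : CharZero κ := charZero_of_injective_algebraMap (algebraMap ℚ κ).injective
  have h6 : v.valuation ℚ 6 = 1 := by
    have h5' : v.valuation ℚ 5 ≤ 1 := by exact_mod_cast v_int v 5
    have h6' : v.valuation ℚ 6 ≤ 1 := by exact_mod_cast v_int v 6
    have h30 : v.valuation ℚ 6 * v.valuation ℚ 5 = 1 := by
      rw [← map_mul, ← hv]
      norm_num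
    refine le_antisymm h6' ?_
    by_contra h
    have h7 : v.valuation ℚ 6 < 1 := not_le.1 h
    have h8 : v.valuation ℚ 6 * v.valuation ℚ 5 ≤ v.valuation ℚ 6 * 1 := mul_le_mul' le_rfl h5'
    rw [h30, mul_one] at h8
    exact absurd h7 (not_lt.2 h8)
  obtain ⟨α, hα⟩ := IsAlgClosed.exists_pow_nat_eq (algebraMap ℚ κ a) (n := 2) (by norm_num)
  obtain ⟨V, O, σ, q, hV, hq, hσ, c1, c2, c3, c4⟩ := bad_all hC a δ α hδ hα v h6 ha
  have ha0 : a ≠ 0 := by
    rintro rfl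
    rw [map_zero] at ha
    exact WithZero.exp_ne_zero ha.symm
  have hα0 : α ≠ 0 := by
    rintro rfl
    rw [zero_pow two_ne_zero] at hα
    exact (_root_.map_ne_zero (algebraMap ℚ κ)).2 ha0 hα.symm
  have hδ0 : δ ≠ 0 := by
    rintro rfl
    rw [zero_pow two_ne_zero] at hδ
    have h5 := hδ.symm
    rw [_root_.map_eq_zero] at h5
    exact mul_ne_zero (by norm_num) ha0 h5
  -- the quotient `δ / α` is a unit whose square is rational
  have hfixq : ∀ τ : κ ≃ₐ[ℚ] κ, Ine V τ → τ (δ / α) = δ / α := by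
    intro τ hτ
    have h5 : (δ / α) ^ 2 = algebraMap ℚ κ (30 ^ 5) := by
      rw [div_pow, hδ, hα, map_mul, mul_div_cancel_right₀ _ ((_root_.map_ne_zero _).2 ha0)]
    have hU : IsU V (δ / α) := by
      have h6' : IsU V ((δ / α) ^ 2) := by
        rw [h5, hV.isU, map_pow, hv, one_pow]
      rw [isU_val, map_pow] at h6'
      rw [isU_val]
      exact (pow_eq_one_iff_of_nonneg zero_le two_ne_zero).1 h6'
    have hU2 : IsU V (2 : κ) := by
      have := (hV.isU 2).2 (v_23 h6).1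
      rwa [map_ofNat] at this
    have h7 : τ (δ / α) ^ 2 = (δ / α) ^ 2 := by
      rw [← map_pow, h5, τ.commutes]
    rcases sq_eq_sq_iff_eq_or_eq_neg.1 h7 with h | h
    · exact h
    · exfalso
      have h4 := hτ.2 _ hU.2.1
      rw [h] at h4
      have h5 : -(δ / α) - δ / α = (-2) * (δ / α) := by ring
      rw [h5] at h4
      rw [isU_val] at hU hU2
      rw [ValuationSubring.mem_nonunits_iff, neg_mul, Valuation.map_neg, map_mul, hU, hU2,
        one_mul] at h4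
      exact lt_irrefl _ h4
  have hiff : ∀ τ : κ ≃ₐ[ℚ] κ, Ine V τ → (τ δ = δ ↔ τ α = α) := by
    intro τ hτ
    have h5 : δ = (δ / α) * α := by field_simp
    have h6 : τ δ = (δ / α) * τ α := by
      conv_lhs => rw [h5]
      rw [map_mul, hfixq τ hτ]
    have h7 : δ / α ≠ 0 := div_ne_zero hδ0 hα0
    constructor
    · intro h
      rw [h] at h6
      conv_lhs at h6 => rw [h5]
      exact (mul_left_cancel₀ h7 h6).symm
    · intro h
      rw [h6, h, ← h5]
  refine ⟨V, O, σ, q, hV, hq, hσ, c1, c2, c3, fun S hS => ?_⟩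
  obtain ⟨W, c, d1, d2, d3, d3', d4, d5, d6, d7⟩ := c4 S hS
  exact ⟨W, c, d1, d2, d3, d3', d4, fun τ hτ h => d5 τ hτ ((hiff τ hτ).1 h),
    fun τ hτ h => d6 τ hτ (fun h' => h ((hiff τ hτ).2 h')), d7⟩

end Pool.Agent.Zk47.TR
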