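import Mathlib
import Pool.Agent.Zk12.TR.Stm4
import Pool.Agent.Zk12.Rigid

/-!
# Rigidity of twisted sections: the type
-/

set_option autoImplicit false
set_option linter.all false

open Polynomial FF Pool.Agent.Y157.PS IsDedekindDomain NumberField

namespace Pool.Agent.Zk47.TR

open Pool.Agent.Y158.GR Pool.Agent.Zk12 Pool.Agent.Zk12.TR

/-- the differences of the branch points: the number `30 (e - l) (e - l') ∏ (l - m)` is a square up to
units outside `6` -/
theorem typ_fin : ∀ l ∈ BQ, ∀ e ∈ BQ, l ≠ e → ∃ l' ∈ BQ, l' ≠ l ∧ l' ≠ e ∧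
    ∃ i ∈ Finset.range 25, ∃ j ∈ Finset.range 25, ∃ k ∈ Finset.range 6,
      30 * ((e - l) * (e - l')) * (∏ m ∈ (BQ.erase l).erase l', (l - m)) = 2 ^ i * 3 ^ j * 25 ^ k ∨
      30 * ((e - l) * (e - l')) * (∏ m ∈ (BQ.erase l).erase l', (l - m)) =
        -(2 ^ i * 3 ^ j * 25 ^ k) := by
  decide +kernel

theorem typ_val {v : HeightOneSpectrum (𝓞 ℚ)} (hv : v.valuation ℚ 6 = 1) {l e : ℚ} (hl : l ∈ BQ)
    (he : e ∈ BQ) (hle : l ≠ e) : ∃ l' ∈ BQ, l' ≠ l ∧ l' ≠ e ∧
      ∃ s : ℚ, s ≠ 0 ∧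
        v.valuation ℚ (30 ^ 5 * (((e - l) * (e - l')) / ∏ m ∈ (BQ.erase l).erase l', (l - m))) =
          v.valuation ℚ s ^ 2 := by
  obtain ⟨l', hl', h1, h2, i, -, j, -, k, -, hN⟩ := typ_fin l hl e he hle
  have hP : (∏ m ∈ (BQ.erase l).erase l', (l - m)) ≠ 0 := by
    rw [Finset.prod_ne_zero_iff]
    intro m hm
    exact sub_ne_zero.2 (Finset.ne_of_mem_erase (Finset.mem_of_mem_erase hm)).symm
  set P := ∏ m ∈ (BQ.erase l).erase l', (l - m) with hPdef
  refine ⟨l', hl', h1, h2, 30 ^ 2 * 5 ^ k / P, by positivity, ?_⟩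
  have h3 : v.valuation ℚ (30 * ((e - l) * (e - l')) * P) = v.valuation ℚ ((5 ^ k) ^ 2) := by
    have h4 : v.valuation ℚ ((2 : ℚ) ^ i * 3 ^ j * 25 ^ k) = v.valuation ℚ ((5 ^ k) ^ 2) := by
      rw [map_mul, map_mul, map_pow _ (2 : ℚ), map_pow _ (3 : ℚ), (v_23 hv).1, (v_23 hv).2, one_pow,
        one_pow, one_mul, one_mul]
      congr 1
      rw [← pow_mul, mul_comm k 2, pow_mul]
      norm_num
    rcases hN with h | h
    · rw [h, h4]
    · rw [h, Valuation.map_neg, h4]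
  have h5 : (30 : ℚ) ^ 5 * (((e - l) * (e - l')) / P) =
      30 * ((e - l) * (e - l')) * P * (30 ^ 2 / P) ^ 2 := by
    field_simp
  rw [h5, map_mul, h3, ← map_mul, ← map_pow]
  congr 1
  field_simp

/-- the residue of a unit at a place whose square has a known value -/
theorem typ_res {κ M : Type} [Field κ] [Field M] [Algebra κ M] (O : ValuationSubring M) {u : M}
    {w : κ} (h : u ^ 2 - algebraMap κ M w ^ 2 ∈ O.nonunits) :
    ∃ w' : κ, w' ^ 2 = w ^ 2 ∧ u - algebraMap κ M w' ∈ O.nonunits := by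
  have h1 : O.valuation (u - algebraMap κ M w) * O.valuation (u + algebraMap κ M w) < 1 := by
    rw [← map_mul]
    have h2 : (u - algebraMap κ M w) * (u + algebraMap κ M w) = u ^ 2 - algebraMap κ M w ^ 2 := by
      ring
    rw [h2]
    exact (ValuationSubring.mem_nonunits_iff O).1 h
  by_cases h3 : O.valuation (u - algebraMap κ M w) < 1
  · exact ⟨w, rfl, (ValuationSubring.mem_nonunits_iff O).2 h3⟩
  · refine ⟨-w, by ring, ?_⟩
    rw [map_neg, sub_neg_eq_add, ValuationSubring.mem_nonunits_iff]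
    by_contra h4
    exact absurd h1 (not_lt.2 (one_le_mul (not_lt.1 h3) (not_lt.1 h4)))

theorem typ : S_TYP := by
  intro κ R M _ _ _ _ _ _ _ _ _ x Y hC a δ hδ S hs v hv ha V hV W e he l hl hWl hI hroot
  by_contra hle
  haveI : IsAlgClosed κ := IsAlgClosure.isAlgClosed ℚ
  haveI : Algebra.IsAlgebraic ℚ κ := IsAlgClosure.isAlgebraic
  haveI : CharZero κ := charZero_of_injective_algebraMap (algebraMap ℚ κ).injective
  obtain ⟨e, heQ, rfl⟩ := mem_BK.1 he
  obtain ⟨l, hlQ, rfl⟩ := mem_BK.1 hl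
  have hleQ : l ≠ e := fun h => hle (by rw [h])
  obtain ⟨l', hl'Q, hl'l, hl'e, s, hs0, hval⟩ := typ_val hv hlQ heQ hleQ
  have hinj := (algebraMap ℚ κ).injective
  obtain ⟨γ, hγS, hγ2⟩ := hroot (algebraMap ℚ κ l) hl (algebraMap ℚ κ l')
    (mem_BK.2 ⟨l', hl'Q, rfl⟩) hle (fun h => hl'e (hinj h))
  -- the constants
  have ha0 : a ≠ 0 := by
    rintro rfl
    rw [map_zero] at ha
    exact WithZero.coe_ne_zero ha.symm
  have hδ0 : δ ≠ 0 := by
    rintro rfl
    rw [zero_pow two_ne_zero] at hδ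
    have h5 := hδ.symm
    rw [_root_.map_eq_zero] at h5
    exact mul_ne_zero (by norm_num) ha0 h5
  set T := (BQ.erase l).erase l' with hT
  have hPQ : (∏ m ∈ T, (l - m)) ≠ 0 := by
    rw [Finset.prod_ne_zero_iff]
    intro m hm
    exact sub_ne_zero.2 (Finset.ne_of_mem_erase (Finset.mem_of_mem_erase hm)).symm
  set c : ℚ := ((e - l) * (e - l')) with hc
  have hc0 : c ≠ 0 := mul_ne_zero (sub_ne_zero.2 (Ne.symm hleQ)) (sub_ne_zero.2 (Ne.symm hl'e))
  -- the algebra map from the rationals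
  let ι : ℚ →+* M := (algebraMap κ M).comp (algebraMap ℚ κ)
  have hι : ∀ q : ℚ, ι q = algebraMap κ M (algebraMap ℚ κ q) := fun q => rfl
  set X := algebraMap R M x with hX
  have hprod : Y ^ 2 = (X - ι l) * (X - ι l') * ∏ m ∈ T, (X - ι m) := by
    rw [hC.eqn]
    have h1 : ∏ e ∈ BK κ, (X - algebraMap κ M e) = ∏ q ∈ BQ, (X - ι q) := by
      unfold BK
      rw [Finset.prod_map]
      rfl
    rw [h1, ← Finset.mul_prod_erase BQ _ hlQ,
      ← Finset.mul_prod_erase (BQ.erase l) _ (Finset.mem_erase.2 ⟨hl'l, hl'Q⟩), mul_assoc]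
  have hW0 : X - ι l ≠ 0 := by
    intro h
    rw [← hι, h, W.ord_zero] at hWl
    exact lt_irrefl _ hWl
  have hlm : X - ι l ∈ W.O.nonunits := (O_non_iff W hW0).2 hWl
  have hO : ∀ q : κ, algebraMap κ M q ∈ W.O := fun q => W.reg_const q
  -- the residue of the product
  have hXO : X ∈ W.O := by
    have := add_mem (non_mem hlm) (hO (algebraMap ℚ κ l))
    rwa [hι, sub_add_cancel] at this
  have hcong : ∀ T' : Finset ℚ, (∏ m ∈ T', (X - ι m)) - ι (∏ m ∈ T', (l - m)) ∈ W.O.nonunits := by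
    intro T'
    induction T' using Finset.induction_on with
    | empty =>
      rw [Finset.prod_empty, Finset.prod_empty, map_one, sub_self]
      exact nonunits_iff.2 ⟨zero_mem _, Or.inl rfl⟩
    | insert m T' hm ih =>
      rw [Finset.prod_insert hm, Finset.prod_insert hm, map_mul, map_sub]
      have h1 : (X - ι m) * ∏ m ∈ T', (X - ι m) - (ι l - ι m) * ι (∏ m ∈ T', (l - m)) =
          (X - ι m) * (∏ m ∈ T', (X - ι m) - ι (∏ m ∈ T', (l - m))) +
            ι (∏ m ∈ T', (l - m)) * (X - ι l) := by ring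
      rw [h1]
      exact non_add (non_mul (sub_mem hXO (hO _)) ih) (non_mul (hO _) hlm)
  have hP := hcong T
  set P := ∏ m ∈ T, (X - ι m) with hPdef
  set p := ∏ m ∈ T, (l - m) with hpdef
  have hpU : IsU W.O (ι p) := by
    refine ⟨?_, hO _, ?_⟩
    · rw [hι]
      exact (_root_.map_ne_zero _).2 ((_root_.map_ne_zero _).2 hPQ)
    · rw [hι, ← map_inv₀]
      exact hO _
  have hPU : IsU W.O P := by
    refine isU_of_not_nonunit ?_ fun h => hpU.not_nonunit ?_
    · have := add_mem (non_mem hP) hpU.2.1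
      rwa [sub_add_cancel] at this
    · have := non_sub h hP
      rwa [sub_sub_cancel] at this
  have hY0 : Y ≠ 0 := by
    intro h
    have h1 := hC.ordY W hl hWl
    rw [h, W.ord_zero] at h1
    exact zero_ne_one h1
  have hY2 : Y ^ 2 ≠ 0 := pow_ne_zero 2 hY0
  have hXl' : (X - ι l) * (X - ι l') ≠ 0 := by
    intro h
    rw [hprod, h, zero_mul] at hY2
    exact hY2 rfl
  have hu2 : (γ / Y) ^ 2 = ι c / P := by
    rw [div_pow, hγ2, hprod, div_eq_div_iff (mul_ne_zero hXl' hPU.1) hPU.1]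
    have h1 : algebraMap κ M ((algebraMap ℚ κ e - algebraMap ℚ κ l) *
        (algebraMap ℚ κ e - algebraMap ℚ κ l')) = ι c := by
      rw [hι, hc]
      simp only [map_mul, map_sub]
    rw [h1, ← hι, ← hι]
    ring
  -- the square root
  obtain ⟨w₀, hw₀⟩ := IsAlgClosed.exists_pow_nat_eq (algebraMap ℚ κ (c / p)) (n := 2) two_pos
  obtain ⟨w, hw, huw⟩ := typ_res W.O (u := γ / Y) (w := w₀) (by
    rw [← map_pow, hw₀, hu2, ← hι, map_div₀]
    have h1 : ι c / P - ι c / ι p = ι c * (P⁻¹ * (ι p)⁻¹) * -(P - ι p) := by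
      have h2 : P * P⁻¹ = 1 := mul_inv_cancel₀ hPU.1
      have h3 : ι p * (ι p)⁻¹ = 1 := mul_inv_cancel₀ hpU.1
      rw [div_eq_mul_inv, div_eq_mul_inv]
      linear_combination (-(ι c * P⁻¹)) * h3 + ι c * (ι p)⁻¹ * h2
    rw [h1]
    exact non_mul (mul_mem (hO _) (mul_mem hPU.2.2 hpU.2.2)) (non_neg hP))
  rw [hw₀] at hw
  have hw0 : w ≠ 0 := by
    rintro rfl
    rw [zero_pow two_ne_zero] at hw
    have h5 := hw.symm
    rw [_root_.map_eq_zero] at h5
    exact div_ne_zero hc0 hPQ h5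
  -- the action of the inertia group
  have hfix : ∀ τ : κ ≃ₐ[ℚ] κ, Ine V τ → τ (δ * w) = δ * w := by
    intro τ hτ
    have hτδ : τ δ ≠ 0 := (_root_.map_ne_zero _).2 hδ0
    have h1 : S τ (γ / Y - algebraMap κ M w) ∈ W.O.nonunits := by
      by_cases h0 : γ / Y - algebraMap κ M w = 0
      · rw [h0, map_zero]
        exact nonunits_iff.2 ⟨zero_mem _, Or.inl rfl⟩
      · rw [O_non_iff W ((map_ne_zero_iff _ (S τ).injective).2 h0), hI τ hτ]
        exact (O_non_iff W h0).1 huw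
    have h2 : S τ (γ / Y - algebraMap κ M w) =
        algebraMap κ M (δ / τ δ) * (γ / Y) - algebraMap κ M (τ w) := by
      rw [map_sub, map_div₀, hγS, hs.fixy, hs.const, map_div₀, map_div₀]
      have h3 : algebraMap κ M δ ≠ 0 := (_root_.map_ne_zero _).2 hδ0
      have h4 : algebraMap κ M (τ δ) ≠ 0 := (_root_.map_ne_zero _).2 hτδ
      field_simp
    rw [h2] at h1
    have h3 := non_sub (non_mul (hO (δ / τ δ)) huw) h1
    have h4 : algebraMap κ M (δ / τ δ) * (γ / Y - algebraMap κ M w) -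
        (algebraMap κ M (δ / τ δ) * (γ / Y) - algebraMap κ M (τ w)) =
          algebraMap κ M (τ w - δ / τ δ * w) := by
      rw [map_sub, map_mul]
      ring
    rw [h4] at h3
    have h5 : τ w - δ / τ δ * w = 0 := by
      by_contra h6
      refine (IsU.not_nonunit (V := W.O) ⟨(_root_.map_ne_zero _).2 h6, hO _, ?_⟩) h3
      rw [← map_inv₀]
      exact hO _
    rw [map_mul, sub_eq_zero.1 h5]
    field_simp
  have h2v : ((2 : ℕ) : 𝓞 ℚ) ∉ v.asIdeal := by
    rw [← v.intValuation_eq_one_iff]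
    have h3 : v.valuation ℚ (algebraMap (𝓞 ℚ) ℚ ((2 : ℕ) : 𝓞 ℚ)) = 1 := by
      rw [_root_.map_natCast]
      exact_mod_cast (v_23 hv).1
    rwa [v.valuation_of_algebraMap] at h3
  obtain ⟨t, ht⟩ := hV.pow h2v (mul_ne_zero hδ0 hw0) hfix (a := 30 ^ 5 * a * (c / p)) (by
    rw [mul_pow, hδ, hw, ← map_mul])
  have h6 : v.valuation ℚ (30 ^ 5 * a * (c / p)) =
      v.valuation ℚ a * v.valuation ℚ s ^ 2 := by
    rw [← hval, ← map_mul]
    congr 1
    ring
  rw [h6] at ht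
  have hs1 : v.valuation ℚ s ≠ 0 := (Valuation.ne_zero_iff _).2 hs0
  have h7 : v.valuation ℚ a = v.valuation ℚ (t / s) ^ 2 := by
    rw [map_div₀, div_pow, ← ht, mul_div_assoc, div_self (pow_ne_zero 2 hs1), mul_one]
  rw [ha] at h7
  have hts : v.valuation ℚ (t / s) ≠ 0 := by
    intro h
    rw [h, zero_pow two_ne_zero] at h7
    exact WithZero.coe_ne_zero h7
  obtain ⟨n, hn⟩ : ∃ n : ℤ, v.valuation ℚ (t / s) = WithZero.exp n :=
    ⟨WithZero.log (v.valuation ℚ (t / s)), (WithZero.exp_log hts).symm⟩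
  rw [hn, ← WithZero.exp_nsmul, WithZero.exp_inj] at h7
  simp only [nsmul_eq_mul] at h7
  omega

end Pool.Agent.Zk47.TR
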